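import Pool.Agent.H34.L.TH161.KS.Defs

set_option autoImplicit false

open Finset Filter Topology
open scoped Classical

namespace Pool.Agent.TH521.KS_GAP

open Pool.Agent.TH161.KS

lemma ev_zero (t : Finset ℕ) (M : ℕ) : ev t M 0 = -1 := by
  unfold ev
  simp

lemma ev_last (t : Finset ℕ) (M i : ℕ) (h : t.card < i) : ev t M i = M := by
  unfold ev
  rw [if_neg (by omega), dif_neg (by omega)]

lemma ev_mid (t : Finset ℕ) (M i : ℕ) (h0 : i ≠ 0) (h : i - 1 < t.card) :
    ev t M i = (t.orderEmbOfFin rfl ⟨i - 1, h⟩ : ℤ) := by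
  unfold ev
  rw [if_neg h0, dif_pos h]

lemma ev_grow (t : Finset ℕ) (M i : ℕ) (h : i ≤ t.card) : ev t (M + 1) i = ev t M i := by
  by_cases h0 : i = 0
  · rw [h0, ev_zero, ev_zero]
  · rw [ev_mid t _ i h0 (by omega), ev_mid t _ i h0 (by omega)]

lemma ord_insert (t : Finset ℕ) (M n : ℕ) (ht : ∀ x ∈ t, x < M) (hn : t.card = n)
    (hn' : (insert M t).card = n + 1) (i : ℕ) (hi : i < n) :
    (insert M t).orderEmbOfFin hn' ⟨i, by omega⟩ = t.orderEmbOfFin hn ⟨i, hi⟩ := by
  have h := Finset.orderEmbOfFin_unique (s := insert M t) hn'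
    (f := Fin.snoc (α := fun _ => ℕ) (fun k => t.orderEmbOfFin hn k) M) (by
      intro x
      refine Fin.lastCases ?_ (fun k => ?_) x
      · rw [Fin.snoc_last]
        exact Finset.mem_insert_self _ _
      · rw [Fin.snoc_castSucc]
        exact Finset.mem_insert_of_mem (Finset.orderEmbOfFin_mem _ _ _)) (by
      intro a b
      refine Fin.lastCases ?_ (fun k => ?_) b
      · refine Fin.lastCases ?_ (fun l => ?_) a
        · intro hab
          exact absurd hab (lt_irrefl _)
        · intro _
          rw [Fin.snoc_last, Fin.snoc_castSucc]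
          exact ht _ (Finset.orderEmbOfFin_mem _ _ _)
      · refine Fin.lastCases ?_ (fun l => ?_) a
        · intro hab
          exact absurd hab (not_lt.mpr (Fin.le_last _))
        · intro hab
          rw [Fin.snoc_castSucc, Fin.snoc_castSucc]
          exact (t.orderEmbOfFin hn).strictMono (by simpa using hab))
  have h2 := congrFun h (Fin.castSucc ⟨i, hi⟩)
  rw [Fin.snoc_castSucc] at h2
  exact h2.symm

lemma ord_insert_last (t : Finset ℕ) (M n : ℕ) (ht : ∀ x ∈ t, x < M) (hn : t.card = n)
    (hn' : (insert M t).card = n + 1) :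
    (insert M t).orderEmbOfFin hn' ⟨n, by omega⟩ = M := by
  have h := Finset.orderEmbOfFin_last hn' (Nat.succ_pos n)
  have h2 : (⟨n + 1 - 1, by omega⟩ : Fin (n + 1)) = ⟨n, by omega⟩ := by
    ext
    simp
  rw [h2] at h
  rw [h]
  refine le_antisymm (Finset.max'_le _ _ _ ?_) (Finset.le_max' _ _ (Finset.mem_insert_self _ _))
  intro y hy
  rcases Finset.mem_insert.mp hy with rfl | hy
  · exact le_rfl
  · exact (ht y hy).le

lemma card_ins (t : Finset ℕ) (M : ℕ) (ht : ∀ x ∈ t, x < M) : (insert M t).card = t.card + 1 := by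
  refine Finset.card_insert_of_notMem ?_
  intro h
  exact lt_irrefl _ (ht _ h)

lemma ord_cast (s : Finset ℕ) (k : ℕ) (h : s.card = k) (i : ℕ) (h1 : i < s.card) (h2 : i < k) :
    s.orderEmbOfFin rfl ⟨i, h1⟩ = s.orderEmbOfFin h ⟨i, h2⟩ := by
  subst h
  rfl

lemma ev_insert (t : Finset ℕ) (M i : ℕ) (ht : ∀ x ∈ t, x < M) (hi : i ≤ t.card + 1) :
    ev (insert M t) (M + 1) i = ev t M i := by
  have hc := card_ins t M ht
  by_cases h0 : i = 0
  · rw [h0, ev_zero, ev_zero]
  · rw [ev_mid _ _ i h0 (by omega), ord_cast _ _ hc _ _ (by omega)]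
    by_cases h1 : i = t.card + 1
    · rw [ev_last t M i (by omega)]
      subst h1
      have := ord_insert_last t M t.card ht rfl hc
      simp only [Nat.add_sub_cancel]
      rw [this]
    · rw [ev_mid t _ i h0 (by omega)]
      rw [ord_insert t M t.card ht rfl hc (i - 1) (by omega)]

lemma sum_split (M n : ℕ) (F : Finset ℕ → ℤ) :
    ∑ t ∈ powersetCard (n + 1) (range (M + 1)), F t =
      ∑ t ∈ powersetCard (n + 1) (range M), F t + ∑ t ∈ powersetCard n (range M), F (insert M t) := by
  rw [Finset.range_add_one, Finset.powersetCard_succ_insert Finset.notMem_range_self,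
    Finset.sum_union, Finset.sum_image]
  · intro a ha b hb hab
    have ha' : M ∉ a := fun h => by
      have := Finset.mem_range.mp ((Finset.mem_powersetCard.mp ha).1 h)
      omega
    have hb' : M ∉ b := fun h => by
      have := Finset.mem_range.mp ((Finset.mem_powersetCard.mp hb).1 h)
      omega
    rw [← Finset.erase_insert ha', ← Finset.erase_insert hb', hab]
  · rw [Finset.disjoint_left]
    intro a ha hb
    obtain ⟨c, _, rfl⟩ := Finset.mem_image.mp hb
    have := Finset.mem_range.mp ((Finset.mem_powersetCard.mp ha).1 (Finset.mem_insert_self M c))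
    omega

/-- moments -/
lemma mom : ∀ (M n i j : ℕ), i ≤ j → j ≤ n + 1 →
    (∑ t ∈ powersetCard n (range M), (ev t M j - ev t M i)) =
      ((j : ℤ) - i) * ((M + 1).choose (n + 1) : ℤ) ∧
    (∑ t ∈ powersetCard n (range M), (ev t M j - ev t M i) * (ev t M j - ev t M i + 1)) =
      ((j : ℤ) - i) * ((j : ℤ) - i + 1) * ((M + 2).choose (n + 2) : ℤ) := by
  have h0 : ∀ (M i j : ℕ), i ≤ j → j ≤ 0 + 1 →
    (∑ t ∈ powersetCard 0 (range M), (ev t M j - ev t M i)) =
      ((j : ℤ) - i) * ((M + 1).choose (0 + 1) : ℤ) ∧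
    (∑ t ∈ powersetCard 0 (range M), (ev t M j - ev t M i) * (ev t M j - ev t M i + 1)) =
      ((j : ℤ) - i) * ((j : ℤ) - i + 1) * ((M + 2).choose (0 + 2) : ℤ) := by
    intro M i j hij hj
    rw [Finset.powersetCard_zero, Finset.sum_singleton, Finset.sum_singleton]
    have e1 : ev ∅ M 1 = M := ev_last ∅ M 1 (by simp)
    have e2 : (((M + 2).choose 2 : ℕ) : ℤ) * 2 = ((M : ℤ) + 2) * (M + 1) := by
      have := Nat.choose_mul_factorial_mul_factorial (n := M + 2) (k := 2) (by omega)
      have h3 := Nat.add_one_mul_choose_eq (M + 1) 1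
      rw [Nat.choose_one_right] at h3
      push_cast at h3 ⊢
      have h4 : ((M : ℤ) + 1 + 1) * (M + 1) = ((M + 1 + 1).choose (1 + 1) : ℤ) * (1 + 1) := by
        exact_mod_cast h3
      linarith
    interval_cases j
    · have : i = 0 := by omega
      subst this
      simp
    · interval_cases i
      · rw [e1, ev_zero]
        constructor
        · simp
        · push_cast
          linarith
      · simp
  intro M
  induction M with
  | zero =>
    intro n i j hij hj
    cases n with
    | zero => exact h0 0 i j hij hj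
    | succ n =>
      rw [Finset.range_zero, Finset.powersetCard_eq_empty.mpr (by simp)]
      rw [Nat.choose_eq_zero_of_lt (by omega), Nat.choose_eq_zero_of_lt (by omega)]
      simp
  | succ M ih =>
    intro n i j hij hj
    cases n with
    | zero => exact h0 (M + 1) i j hij hj
    | succ n =>
      rw [sum_split, sum_split]
      have hp1 : ((M + 1 + 1).choose (n + 1 + 1) : ℤ) =
          ((M + 1).choose (n + 1) : ℤ) + ((M + 1).choose (n + 1 + 1) : ℤ) := by
        exact_mod_cast Nat.choose_succ_succ (M + 1) (n + 1)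
      have hp2 : ((M + 1 + 2).choose (n + 1 + 2) : ℤ) =
          ((M + 2).choose (n + 2) : ℤ) + ((M + 2).choose (n + 1 + 2) : ℤ) := by
        exact_mod_cast Nat.choose_succ_succ (M + 2) (n + 2)
      have hp3 : ((M + 2).choose (n + 2) : ℤ) =
          ((M + 1).choose (n + 1) : ℤ) + ((M + 1).choose (n + 2) : ℤ) := by
        exact_mod_cast Nat.choose_succ_succ (M + 1) (n + 1)
      have hp4 : ((M + 1).choose (n + 1) : ℤ) = (M.choose n : ℤ) + (M.choose (n + 1) : ℤ) := by
        exact_mod_cast Nat.choose_succ_succ M n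
      have hcd : ∀ m, ∀ t ∈ powersetCard m (range M), (∀ x ∈ t, x < M) ∧ t.card = m := by
        intro m t ht
        obtain ⟨h1, h2⟩ := Finset.mem_powersetCard.mp ht
        exact ⟨fun x hx => Finset.mem_range.mp (h1 hx), h2⟩
      by_cases hjn : j ≤ n + 1
      · obtain ⟨a1, a2⟩ := ih (n + 1) i j hij (by omega)
        obtain ⟨b1, b2⟩ := ih n i j hij hjn
        have e1 : ∀ t ∈ powersetCard (n + 1) (range M),
            ev t (M + 1) j - ev t (M + 1) i = ev t M j - ev t M i := by
          intro t ht
          obtain ⟨_, h2⟩ := hcd _ t ht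
          rw [ev_grow t M j (by omega), ev_grow t M i (by omega)]
        have e2 : ∀ t ∈ powersetCard n (range M),
            ev (insert M t) (M + 1) j - ev (insert M t) (M + 1) i = ev t M j - ev t M i := by
          intro t ht
          obtain ⟨h1, h2⟩ := hcd _ t ht
          rw [ev_insert t M j h1 (by omega), ev_insert t M i h1 (by omega)]
        constructor
        · rw [Finset.sum_congr rfl e1, Finset.sum_congr rfl e2, a1, b1, hp1]
          ring
        · have f1 : ∀ t ∈ powersetCard (n + 1) (range M),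
              (ev t (M + 1) j - ev t (M + 1) i) * (ev t (M + 1) j - ev t (M + 1) i + 1) =
                (ev t M j - ev t M i) * (ev t M j - ev t M i + 1) := by
            intro t ht
            rw [e1 t ht]
          have f2 : ∀ t ∈ powersetCard n (range M),
              (ev (insert M t) (M + 1) j - ev (insert M t) (M + 1) i) *
                (ev (insert M t) (M + 1) j - ev (insert M t) (M + 1) i + 1) =
                (ev t M j - ev t M i) * (ev t M j - ev t M i + 1) := by
            intro t ht
            rw [e2 t ht]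
          rw [Finset.sum_congr rfl f1, Finset.sum_congr rfl f2, a2, b2, hp2]
          ring
      · have hj2 : j = n + 2 := by omega
        subst hj2
        by_cases hi : i = n + 2
        · subst hi
          simp
        · obtain ⟨a1, a2⟩ := ih (n + 1) i (n + 2) hij (by omega)
          obtain ⟨b1, b2⟩ := ih n i (n + 1) (by omega) (by omega)
          have e1 : ∀ t ∈ powersetCard (n + 1) (range M),
              ev t (M + 1) (n + 2) - ev t (M + 1) i = ev t M (n + 2) - ev t M i + 1 := by
            intro t ht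
            obtain ⟨_, h2⟩ := hcd _ t ht
            rw [ev_last t (M + 1) (n + 2) (by omega), ev_last t M (n + 2) (by omega),
              ev_grow t M i (by omega)]
            push_cast
            ring
          have e2 : ∀ t ∈ powersetCard n (range M),
              ev (insert M t) (M + 1) (n + 2) - ev (insert M t) (M + 1) i =
                ev t M (n + 1) - ev t M i + 1 := by
            intro t ht
            obtain ⟨h1, h2⟩ := hcd _ t ht
            rw [ev_insert t M i h1 (by omega), ev_last t M (n + 1) (by omega),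
              ev_last (insert M t) (M + 1) (n + 2) (by rw [card_ins t M h1]; omega)]
            push_cast
            ring
          have c1 : ∑ t ∈ powersetCard (n + 1) (range M), (1 : ℤ) = (M.choose (n + 1) : ℤ) := by
            rw [Finset.sum_const, Finset.card_powersetCard, Finset.card_range]
            simp
          have c2 : ∑ t ∈ powersetCard n (range M), (1 : ℤ) = (M.choose n : ℤ) := by
            rw [Finset.sum_const, Finset.card_powersetCard, Finset.card_range]
            simp
          constructor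
          · rw [Finset.sum_congr rfl e1, Finset.sum_congr rfl e2, Finset.sum_add_distrib,
              Finset.sum_add_distrib, a1, b1, c1, c2, hp1, hp4]
            push_cast
            ring
          · have f1 : ∀ t ∈ powersetCard (n + 1) (range M),
                (ev t (M + 1) (n + 2) - ev t (M + 1) i) *
                  (ev t (M + 1) (n + 2) - ev t (M + 1) i + 1) =
                (ev t M (n + 2) - ev t M i) * (ev t M (n + 2) - ev t M i + 1) +
                  2 * (ev t M (n + 2) - ev t M i) + 2 * 1 := by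
              intro t ht
              rw [e1 t ht]
              ring
            have f2 : ∀ t ∈ powersetCard n (range M),
                (ev (insert M t) (M + 1) (n + 2) - ev (insert M t) (M + 1) i) *
                  (ev (insert M t) (M + 1) (n + 2) - ev (insert M t) (M + 1) i + 1) =
                (ev t M (n + 1) - ev t M i) * (ev t M (n + 1) - ev t M i + 1) +
                  2 * (ev t M (n + 1) - ev t M i) + 2 * 1 := by
              intro t ht
              rw [e2 t ht]
              ring
            rw [Finset.sum_congr rfl f1, Finset.sum_congr rfl f2, Finset.sum_add_distrib,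
              Finset.sum_add_distrib, Finset.sum_add_distrib, Finset.sum_add_distrib,
              ← Finset.mul_sum, ← Finset.mul_sum, ← Finset.mul_sum, ← Finset.mul_sum,
              a1, a2, b1, b2, c1, c2, hp2]
            push_cast
            linear_combination (-2 * ((n : ℤ) + 2 - i)) * hp3 - 2 * hp4

theorem t_GAP : P_GAP := by
  intro n M i j hnM hij hj
  obtain ⟨h1, h2⟩ := mom M n i j hij hj
  obtain ⟨X, hX⟩ : ∃ X : Finset ℕ → ℝ, X = fun t => (ev t M j : ℝ) - ev t M i := ⟨_, rfl⟩
  have g1 : ∑ t ∈ powersetCard n (range M), X t = ((j : ℝ) - i) * ((M + 1).choose (n + 1) : ℝ) := by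
    simp only [hX]
    exact_mod_cast h1
  have g2 : ∑ t ∈ powersetCard n (range M), X t * (X t + 1) =
      ((j : ℝ) - i) * ((j : ℝ) - i + 1) * ((M + 2).choose (n + 2) : ℝ) := by
    simp only [hX]
    exact_mod_cast h2
  have g3 : ∑ t ∈ powersetCard n (range M), (1 : ℝ) = (M.choose n : ℝ) := by
    rw [Finset.sum_const, Finset.card_powersetCard, Finset.card_range]
    simp
  obtain ⟨K, hK⟩ : ∃ K : ℝ, K = ((M : ℝ) + 1) / ((n : ℝ) + 1) := ⟨_, rfl⟩
  have hn : (0 : ℝ) < (n : ℝ) + 1 := by positivity
  have hn2 : (0 : ℝ) < (n : ℝ) + 2 := by positivity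
  have c1 : ((M + 1).choose (n + 1) : ℝ) = K * (M.choose n : ℝ) := by
    have := Nat.add_one_mul_choose_eq M n
    have h3 : ((M : ℝ) + 1) * (M.choose n : ℝ) = ((M + 1).choose (n + 1) : ℝ) * ((n : ℝ) + 1) := by
      exact_mod_cast this
    rw [hK, div_mul_eq_mul_div, h3]
    field_simp
  have c2 : ((M + 2).choose (n + 2) : ℝ) * ((n : ℝ) + 2) =
      ((M : ℝ) + 2) * ((M + 1).choose (n + 1) : ℝ) := by
    have := Nat.add_one_mul_choose_eq (M + 1) (n + 1)
    have h3 : ((M : ℝ) + 1 + 1) * ((M + 1).choose (n + 1) : ℝ) =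
        ((M + 1 + 1).choose (n + 1 + 1) : ℝ) * ((n : ℝ) + 1 + 1) := by
      exact_mod_cast this
    have h4 : (n : ℝ) + 2 = n + 1 + 1 := by ring
    have h5 : (M : ℝ) + 2 = M + 1 + 1 := by ring
    rw [h4, h5, h3]
  have hMn : (n : ℝ) ≤ M := by exact_mod_cast hnM
  have hij' : (0 : ℝ) ≤ (j : ℝ) - i := by
    have : (i : ℝ) ≤ j := by exact_mod_cast hij
    linarith
  have hc : (0 : ℝ) ≤ (M.choose n : ℝ) := Nat.cast_nonneg _
  have hKpos : 0 ≤ K := by rw [hK]; positivity
  have hK1 : 1 ≤ K := by
    rw [hK, le_div_iff₀ hn]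
    linarith
  have hK2 : ((M : ℝ) + 2) / ((n : ℝ) + 2) ≤ K := by
    rw [hK, div_le_div_iff₀ hn2 hn]
    nlinarith
  have c3 : ((M + 2).choose (n + 2) : ℝ) ≤ K * K * (M.choose n : ℝ) := by
    have h3 : ((M + 2).choose (n + 2) : ℝ) =
        ((M : ℝ) + 2) / ((n : ℝ) + 2) * ((M + 1).choose (n + 1) : ℝ) := by
      rw [div_mul_eq_mul_div, ← c2]
      field_simp
    rw [h3, c1]
    have : 0 ≤ K * (M.choose n : ℝ) := mul_nonneg hKpos hc
    nlinarith
  have e1 : ∑ t ∈ powersetCard n (range M), (((ev t M j : ℝ) - ev t M i) -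
      ((j : ℝ) - i) * (((M : ℝ) + 1) / ((n : ℝ) + 1))) ^ 2 =
      ∑ t ∈ powersetCard n (range M), X t * (X t + 1) -
        (1 + 2 * (((j : ℝ) - i) * K)) * ∑ t ∈ powersetCard n (range M), X t +
        (((j : ℝ) - i) * K) ^ 2 * ∑ t ∈ powersetCard n (range M), (1 : ℝ) := by
    rw [Finset.mul_sum, Finset.mul_sum, ← Finset.sum_sub_distrib, ← Finset.sum_add_distrib]
    refine Finset.sum_congr rfl fun t _ => ?_
    rw [hX, hK]
    ring
  rw [e1, g1, g2, g3, c1, ← hK]
  obtain ⟨k, hk⟩ : ∃ k : ℝ, k = (j : ℝ) - i := ⟨_, rfl⟩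
  rw [← hk] at hij' ⊢
  have h6 : k * (k + 1) * ((M + 2).choose (n + 2) : ℝ) ≤
      k * (k + 1) * (K * K * (M.choose n : ℝ)) :=
    mul_le_mul_of_nonneg_left c3 (by positivity)
  have h7 : 0 ≤ k * (K * (M.choose n : ℝ)) := by positivity
  nlinarith

end Pool.Agent.TH521.KS_GAP
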